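import Mathlib
import Pool.Agent.R945.LD.Three

set_option autoImplicit false

namespace Pool.Agent.Results.MP_f45d88_nt.FloorSquare

open Polynomial Pool.Agent.R945.LD Pool.Agent.Helper184.Chapman

lemma legendre_three (p : ℕ) [Fact p.Prime] (hp : p % 4 = 3) (hp7 : 7 ≤ p) :
    (p : ℤ) - 3 + legendreSym p 3 = 3 * (((p - 2) / 3 : ℕ) : ℤ) := by
  have hpp : p.Prime := Fact.out
  have : Fact (Nat.Prime 3) := ⟨Nat.prime_three⟩
  have h := legendreSym.quadratic_reciprocity_three_mod_four (p := p) (q := 3) hp (by norm_num)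
  have hmod : p % 3 = 1 ∨ p % 3 = 2 := by
    have h0 : p % 3 ≠ 0 := by
      intro h0
      have := (Nat.prime_dvd_prime_iff_eq Nat.prime_three hpp).mp (Nat.dvd_of_mod_eq_zero h0)
      omega
    omega
  have h2 : legendreSym p 3 = - legendreSym 3 p := by
    have h' : legendreSym 3 (p : ℤ) = - legendreSym p ((3 : ℕ) : ℤ) := h
    rw [h']; simp
  rw [h2, legendreSym.mod 3 (p : ℤ)]
  rcases hmod with h0 | h0
  · have e : (p : ℤ) % ((3 : ℕ) : ℤ) = 1 := by omega
    rw [e]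
    have e2 : legendreSym 3 1 = 1 := legendreSym.at_one 3
    rw [e2]
    omega
  · have e : (p : ℤ) % ((3 : ℕ) : ℤ) = 2 := by omega
    rw [e]
    have e2 : legendreSym 3 2 = -1 := by
      rw [legendreSym.at_two (by norm_num)]
      decide
    rw [e2]
    omega

theorem result (p : ℕ) [Fact p.Prime] (hp7 : 7 ≤ p) (hp : p % 4 = 3) :
    (Matrix.of fun j k : Fin ((p - 5) / 2) =>
      (X : ℤ[X]) + C (legendreSym p ((j : ℤ) - (k : ℤ)))).det = C ((((p - 2) / 3 : ℕ) : ℤ) ^ 2) * X := by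
  have hpp : p.Prime := Fact.out
  obtain ⟨N, hN⟩ : ∃ N, p = 2 * (N + 2) + 1 := ⟨(p - 5) / 2, by omega⟩
  have hm1 : (p - 5) / 2 = N := by omega
  rw [hm1]
  apply lift_poly N (fun j k : Fin N => legendreSym p ((j : ℤ) - (k : ℤ)))
  intro x
  have h1 := sum_order_m2 hp N hN x
  have h2 := congrArg (Int.cast : ℤ → ℂ) (legendre_three p hp hp7)
  have h3 : chi p ℂ 3 = ((legendreSym p 3 : ℤ) : ℂ) := by
    rw [chi_apply]; simp [legendreSym]
  push_cast at h2
  rw [h3, h2] at h1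
  have h4 : (Matrix.of fun i j : Fin N => x + ((legendreSym p ((i : ℤ) - (j : ℤ)) : ℤ) : ℂ)) =
      (Matrix.of fun i j : Fin N => x + (((quadraticChar (ZMod p) (((i : ℕ) : ZMod p)
      - ((j : ℕ) : ZMod p)) : ℤ)) : ℂ)) := by
    ext i j
    simp only [Matrix.of_apply, legendreSym]
    congr 3
    push_cast
    rfl
  rw [h4]
  have h9 : (9 : ℂ) ≠ 0 := by norm_num
  apply mul_left_cancel₀ h9
  rw [h1]
  push_cast
  ring

end Pool.Agent.Results.MP_f45d88_nt.FloorSquare
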